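import Pool.Agent.H40.Atiyah.Arr

/-!
# Weakly monotone cyclic arrays of angles
-/

set_option autoImplicit false

namespace Pool.Agent.H64.CW

open Pool.Agent.H40.Atiyah (KArr)

/-- weakly monotone periodic arrays -/
structure WArr (n : ℕ) (u : ℤ → ℤ → ℝ) : Prop where
  per : ∀ i j : ℤ, u (i + n) (j + n) = u i j + 2 * Real.pi
  row : ∀ i j : ℤ, i < j → j + 1 < i + n → u i j ≤ u i (j + 1)
  col : ∀ i j : ℤ, i + 1 < j → j < i + n → u i j ≤ u (i + 1) j
  diag : ∀ i : ℤ, u i (i + 1) ≤ u (i + 1) (i + 2)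

theorem WArr.of_karr {n : ℕ} {u : ℤ → ℤ → ℝ} (h : KArr n u) : WArr n u :=
  ⟨h.per, fun i j h1 h2 => (h.row i j h1 h2).le, fun i j h1 h2 => (h.col i j h1 h2).le,
    fun i => (h.diag i).le⟩

end Pool.Agent.H64.CW
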