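import Pool.Agent.H64.CC.Main
import Pool.Agent.H64.CW.WArr

/-!
# Exit points of rays and arrays of strictly convex positions
-/

set_option autoImplicit false

open Set Filter Topology

namespace Pool.Agent.H64.CW

open Pool.Agent.H64.Hyp4
open Pool.Agent.H64.CC
open Pool.Agent.H40.Atiyah (KArr)

theorem exists_exit {z w : ℂ} (hz : ‖z‖ < 1) (hw : w ≠ 0) : ∃ s : ℝ, 0 < s ∧ ‖z + s • w‖ = 1 := by
  have hw' : 0 < ‖w‖ := norm_pos_iff.2 hw
  have h2 : (1 : ℝ) ≤ ‖z + (2 / ‖w‖) • w‖ := by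
    have h3 : ‖(2 / ‖w‖) • w‖ = 2 := by
      rw [norm_smul, Real.norm_of_nonneg (by positivity), div_mul_cancel₀ _ hw'.ne']
    have h4 := norm_sub_le (z + (2 / ‖w‖) • w) z
    rw [add_sub_cancel_left, h3] at h4
    linarith
  have h0 : ‖z + (0 : ℝ) • w‖ ≤ 1 := by
    rw [zero_smul, add_zero]
    exact hz.le
  have hcont : ContinuousOn (fun s : ℝ => ‖z + s • w‖) (Icc 0 (2 / ‖w‖)) := by fun_prop
  obtain ⟨s, hs, hs1⟩ := intermediate_value_Icc (by positivity : (0 : ℝ) ≤ 2 / ‖w‖) hcont ⟨h0, h2⟩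
  refine ⟨s, ?_, hs1⟩
  rcases hs.1.eq_or_lt with h | h
  · exfalso
    rw [← h] at hs1
    simp only [zero_smul, add_zero] at hs1
    linarith
  · exact h

theorem norm_lt_of_exit {z w : ℂ} (hz : ‖z‖ < 1) {s t : ℝ} (hs : 0 ≤ s) (ht : ‖z + t • w‖ ≤ 1) (hst : s < t) :
    ‖z + s • w‖ < 1 := by
  have ht0 : 0 < t := hs.trans_lt hst
  have h1 : z + s • w = (1 - s / t) • z + (s / t) • (z + t • w) := by
    rw [smul_add, smul_smul, div_mul_cancel₀ _ ht0.ne', ← add_assoc, ← add_smul, sub_add_cancel, one_smul]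
  have h2 : 0 < 1 - s / t := by
    have := (div_lt_one ht0).2 hst
    linarith
  have h3 : 0 ≤ s / t := div_nonneg hs ht0.le
  rw [h1]
  calc ‖(1 - s / t) • z + (s / t) • (z + t • w)‖ ≤ ‖(1 - s / t) • z‖ + ‖(s / t) • (z + t • w)‖ := norm_add_le _ _
    _ = (1 - s / t) * ‖z‖ + (s / t) * ‖z + t • w‖ := by
        rw [norm_smul, norm_smul, Real.norm_of_nonneg h2.le, Real.norm_of_nonneg h3]
    _ < (1 - s / t) * 1 + (s / t) * 1 := by
        have h4 := mul_lt_mul_of_pos_left hz h2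
        have h5 := mul_le_mul_of_nonneg_left ht h3
        linarith
    _ = 1 := by ring

theorem exit_unique {z w : ℂ} (hz : ‖z‖ < 1) {s t : ℝ} (hs : 0 < s) (ht : 0 < t) (h1 : ‖z + s • w‖ = 1)
    (h2 : ‖z + t • w‖ = 1) : s = t := by
  rcases lt_trichotomy s t with h | h | h
  · exact absurd h1 (norm_lt_of_exit hz hs.le h2.le h).ne
  · exact h
  · exact absurd h2 (norm_lt_of_exit hz ht.le h1.le h).ne

/-- opposite rays have different exit points -/
theorem exit_ne {p q : ℂ} (hp : ‖p‖ < 1) (hq : ‖q‖ < 1) (hpq : p ≠ q) {s t : ℝ} (hs : 0 < s) (ht : 0 < t)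
    (h1 : ‖p + s • (q - p)‖ = 1) : p + s • (q - p) ≠ q + t • (p - q) := by
  intro h
  have h3 : (s - 1 + t) • (q - p) = 0 := by
    have h4 : (s - 1 + t) • (q - p) = p + s • (q - p) - (q + t • (p - q)) := by
      rw [add_smul, sub_smul, one_smul, smul_sub t p q, smul_sub t q p]
      abel
    rw [h4, h, sub_self]
  rcases smul_eq_zero.1 h3 with h4 | h4
  · have h5 : s < 1 := by linarith
    have h6 := norm_lt_of_exit (w := q - p) hp hs.le (t := 1) (by rw [one_smul, add_sub_cancel]; exact hq.le) h5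
    linarith
  · exact hpq (sub_eq_zero.1 h4).symm

/-- the array of a strictly convex position -/
theorem exists_karr_fin {n : ℕ} (hn : 2 ≤ n) {y : Fin n → ℂ} (hy : ConvexIndependent ℝ y) (hy1 : ∀ i, ‖y i‖ < 1) :
    ∃ (σ : Equiv.Perm (Fin n)) (u : ℤ → ℤ → ℝ), KArr n u ∧ ∀ a b : Fin n, b ≠ a → ∀ s : ℝ, 0 < s →
      ‖y (σ a) + s • (y (σ b) - y (σ a))‖ = 1 →
      y (σ a) + s • (y (σ b) - y (σ a)) = ex (u ((a : ℕ) : ℤ) (lft a b)) := by
  obtain ⟨σ, hσ⟩ := exists_enum hy
  obtain ⟨Z, hZ⟩ : ∃ Z : ℕ → ℂ, ∀ a : Fin n, Z (a : ℕ) = y (σ a) := by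
    refine ⟨fun a => if h : a < n then y (σ ⟨a, h⟩) else 0, fun a => ?_⟩
    simp only [a.2, dif_pos, Fin.eta]
  obtain ⟨u, hu, hexit⟩ := exists_karr n hn Z (fun i hi => by
    rw [show i = ((⟨i, hi⟩ : Fin n) : ℕ) from rfl, hZ]
    exact hy1 _) (fun i j k hij hjk hk => by
    have hj : j < n := hjk.trans hk
    have hi : i < n := hij.trans hj
    rw [show i = ((⟨i, hi⟩ : Fin n) : ℕ) from rfl, show j = ((⟨j, hj⟩ : Fin n) : ℕ) from rfl,
      show k = ((⟨k, hk⟩ : Fin n) : ℕ) from rfl, hZ, hZ, hZ]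
    exact hσ _ _ _ hij hjk) (fun i j hij hj => by
    have hi : i < n := hij.trans hj
    rw [show i = ((⟨i, hi⟩ : Fin n) : ℕ) from rfl, show j = ((⟨j, hj⟩ : Fin n) : ℕ) from rfl,
      hZ, hZ]
    intro h
    have h1 := σ.injective (hy.injective h)
    have h2 := congrArg Fin.val h1
    simp only at h2
    omega)
  refine ⟨σ, u, hu, fun a b hab s hs h3 => ?_⟩
  obtain ⟨l1, l2⟩ := lft_mem hab
  have h5 := hexit (a : ℕ) (lft a b) l1 l2 s hs
  have h6 : (((a : ℕ) : ℤ) % (n : ℤ)).toNat = (a : ℕ) := by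
    rw [Int.emod_eq_of_lt (by omega) (by have := a.2; omega)]
    simp
  rw [h6, lft_mod, hZ, hZ] at h5
  exact h5 h3

theorem karr_shift {n : ℕ} {u : ℤ → ℤ → ℝ} (hu : KArr n u) (k i j : ℤ) :
    u (i + k * n) (j + k * n) = u i j + 2 * Real.pi * k := by
  induction k using Int.induction_on with
  | zero => simp
  | succ k ih =>
    have h1 := hu.per (i + k * n) (j + k * n)
    rw [show i + ((k : ℤ) + 1) * n = i + k * n + n by ring, show j + ((k : ℤ) + 1) * n = j + k * n + n by ring, h1, ih]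
    push_cast
    ring
  | pred k ih =>
    have h1 := hu.per (i + (-(k : ℤ) - 1) * n) (j + (-(k : ℤ) - 1) * n)
    rw [show i + (-(k : ℤ) - 1) * n + n = i + -(k : ℤ) * n by ring,
      show j + (-(k : ℤ) - 1) * n + n = j + -(k : ℤ) * n by ring, ih] at h1
    push_cast at h1 ⊢
    linarith

/-- a normalised array, with values in fixed intervals -/
theorem exists_normalised {n : ℕ} (hn : 2 ≤ n) {u : ℤ → ℤ → ℝ} (hu : KArr n u) : ∃ v : ℤ → ℤ → ℝ, KArr n v ∧
    (∀ i j : ℤ, i < j → j < i + n → ex (v i j) = ex (u i j)) ∧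
    ∀ i j : ℤ, v i j ∈ Icc (2 * Real.pi * (i / n : ℤ)) (2 * Real.pi * (i / n : ℤ) + 6 * Real.pi) := by
  have hpi := Real.pi_pos
  have hn0 : (n : ℤ) ≠ 0 := by omega
  obtain ⟨m, hm⟩ : ∃ m : ℤ, m = ⌊u 0 1 / (2 * Real.pi)⌋ := ⟨_, rfl⟩
  have hm1 : 2 * Real.pi * m ≤ u 0 1 := by
    have h1 := Int.floor_le (u 0 1 / (2 * Real.pi))
    rw [← hm, le_div_iff₀ (by positivity)] at h1
    linarith
  have hm2 : u 0 1 < 2 * Real.pi * m + 2 * Real.pi := by
    have h1 := Int.lt_floor_add_one (u 0 1 / (2 * Real.pi))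
    rw [← hm, div_lt_iff₀ (by positivity)] at h1
    linarith
  have hdiv : ∀ i : ℤ, (i + n) / n = i / n + 1 := fun i => by
    rw [Int.add_ediv_of_dvd_right (dvd_refl _), Int.ediv_self hn0]
  refine ⟨fun i j => if i < j ∧ j < i + n then u i j - 2 * Real.pi * m else 2 * Real.pi * (i / n : ℤ), ⟨?_, ?_, ?_, ?_⟩, ?_, ?_⟩
  · intro i j
    by_cases h : i < j ∧ j < i + n
    · rw [if_pos h, if_pos (by omega), hu.per]
      ring
    · rw [if_neg h, if_neg (by omega), hdiv]
      push_cast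
      ring
  · intro i j h1 h2
    rw [if_pos (by omega), if_pos (by omega)]
    linarith [hu.row i j h1 h2]
  · intro i j h1 h2
    rw [if_pos (by omega), if_pos (by omega)]
    linarith [hu.col i j h1 h2]
  · intro i
    rw [if_pos (by omega), if_pos (by omega)]
    linarith [hu.diag i]
  · intro i j h1 h2
    simp only
    rw [if_pos ⟨h1, h2⟩]
    have h3 := ex_add_int (u i j) (-m)
    rw [← h3]
    congr 1
    push_cast
    ring
  · intro i j
    simp only
    by_cases h : i < j ∧ j < i + n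
    · rw [if_pos h]
      have e1 : i = i % n + i / n * n := by
        have := Int.ediv_mul_add_emod i n
        linarith
      have e2 : j = (j - i / n * n) + i / n * n := by ring
      have h1 := Int.emod_nonneg i hn0
      have h2 := Int.emod_lt_of_pos i (show (0 : ℤ) < n by omega)
      have e3 : u i j = u (i % n) (j - i / n * n) + 2 * Real.pi * (i / n : ℤ) := by
        conv_lhs => rw [e1, e2]
        exact karr_shift hu _ _ _
      have h3 : u 0 1 ≤ u (i % n) (j - i / n * n) := hu.le hn (by omega) (by omega) (by omega) (by omega) (by omega) (by omega)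
      have h4 : u (i % n) (j - i / n * n) ≤ u (0 + 2 * n) (1 + 2 * n) :=
        (hu.le hn (i := i % n) (j := j - i / n * n) (i' := n) (j' := 2 * n - 1) (by omega) (by omega) (by omega) (by omega)
          (by omega) (by omega)).trans
          (hu.le hn (by omega) (by omega) (by omega) (by omega) (by omega) (by omega))
      rw [karr_shift hu] at h4
      push_cast at h4
      rw [e3]
      constructor
      · linarith
      · linarith
    · rw [if_neg h]
      constructor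
      · exact le_refl _
      · linarith

end Pool.Agent.H64.CW
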