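import Mathlib

/-!
# Supporting functionals for points of the relative boundary of their hull

Distinct points `x i` (`n ≥ 3`) of a finite dimensional space, none in the relative interior of the
convex hull, with an injective linear image in the plane: there are an interior point `o` of the hull of
the images and functionals `g i` with `g i (y i - o) = 1` and `g i (y j - o) ≤ 1`.
-/

set_option autoImplicit false

open Set

namespace Pool.Agent.H64.CW

/-- a criterion for points of the relative interior -/
theorem mem_intrinsicInterior_of {E F : Type*} [NormedAddCommGroup E] [NormedSpace ℝ E]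
    [FiniteDimensional ℝ E] [NormedAddCommGroup F] [NormedSpace ℝ F] (A : E →ₗ[ℝ] F) {C : Set E}
    (hinj : ∀ q ∈ affineSpan ℝ C, ∀ q' ∈ affineSpan ℝ C, A q = A q' → q = q') {x : E} (hx : x ∈ C)
    (h : A x ∈ interior (A '' C)) : x ∈ intrinsicInterior ℝ C := by
  rw [mem_intrinsicInterior]
  refine ⟨⟨x, subset_affineSpan ℝ C hx⟩, ?_, rfl⟩
  rw [mem_interior]
  refine ⟨(fun q : affineSpan ℝ C => A q) ⁻¹' interior (A '' C), ?_, ?_, h⟩
  · intro q hq
    obtain ⟨c, hc, hcq⟩ := interior_subset hq
    have h1 := hinj c (subset_affineSpan ℝ C hc) q q.2 hcq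
    show (q : E) ∈ C
    rw [← h1]
    exact hc
  · exact isOpen_interior.preimage ((A.continuous_of_finiteDimensional).comp continuous_subtype_val)

/-- three points on a line: one is in the relative interior -/
theorem exists_interior_of_line {E : Type*} [NormedAddCommGroup E] [NormedSpace ℝ E]
    [FiniteDimensional ℝ E] {n : ℕ} (hn : 3 ≤ n) {x : Fin n → E} (ℓ : E →ₗ[ℝ] ℝ)
    (hℓ : Function.Injective fun i => ℓ (x i))
    (hinj : ∀ q ∈ affineSpan ℝ (range x), ∀ q' ∈ affineSpan ℝ (range x), ℓ q = ℓ q' → q = q') :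
    ∃ i, x i ∈ intrinsicInterior ℝ (convexHull ℝ (range x)) := by
  have : NeZero n := ⟨by omega⟩
  obtain ⟨a, ha⟩ := Finite.exists_min fun i => ℓ (x i)
  obtain ⟨b, hb⟩ := Finite.exists_max fun i => ℓ (x i)
  obtain ⟨i, hi⟩ : ∃ i : Fin n, i ∉ ({a, b} : Finset (Fin n)) := by
    by_contra hcon
    push Not at hcon
    have h1 : (Finset.univ : Finset (Fin n)) ⊆ {a, b} := fun i _ => hcon i
    have h2 := Finset.card_le_card h1
    have h3 := Finset.card_le_two (a := a) (b := b)
    rw [Finset.card_univ, Fintype.card_fin] at h2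
    omega
  rw [Finset.mem_insert, Finset.mem_singleton, not_or] at hi
  refine ⟨i, mem_intrinsicInterior_of ℓ ?_ (subset_convexHull ℝ _ (mem_range_self i)) ?_⟩
  · rw [affineSpan_convexHull]
    exact hinj
  · have h1 : ℓ (x a) < ℓ (x i) := lt_of_le_of_ne (ha i) fun h => hi.1 (hℓ h).symm
    have h2 : ℓ (x i) < ℓ (x b) := lt_of_le_of_ne (hb i) fun h => hi.2 (hℓ h)
    have hsub : Ioo (ℓ (x a)) (ℓ (x b)) ⊆ ℓ '' convexHull ℝ (range x) := by
      rw [ℓ.image_convexHull, ← range_comp]
      intro t ht
      have ha' : ℓ (x a) ∈ convexHull ℝ (range (ℓ ∘ x)) := subset_convexHull ℝ _ (mem_range_self a)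
      have hb' : ℓ (x b) ∈ convexHull ℝ (range (ℓ ∘ x)) := subset_convexHull ℝ _ (mem_range_self b)
      exact (convex_convexHull ℝ (range (ℓ ∘ x))).ordConnected.out ha' hb' (Ioo_subset_Icc_self ht)
    exact mem_interior.2 ⟨_, hsub, isOpen_Ioo, h1, h2⟩

/-- interior point and supporting functionals -/
theorem exists_support {E : Type*} [NormedAddCommGroup E] [NormedSpace ℝ E]
    [FiniteDimensional ℝ E] {n : ℕ} (hn : 3 ≤ n) {x : Fin n → E} (hx : Function.Injective x)
    (hw : ∀ i, x i ∉ intrinsicInterior ℝ (convexHull ℝ (range x))) (A : E →ₗ[ℝ] ℂ)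
    (hA : ∀ q ∈ affineSpan ℝ (range x), ∀ q' ∈ affineSpan ℝ (range x), A q = A q' → q = q') :
    ∃ (o : ℂ) (g : Fin n → (ℂ →L[ℝ] ℝ)), o ∈ convexHull ℝ (range fun i => A (x i)) ∧
      (∀ i, g i (A (x i) - o) = 1) ∧ ∀ i j, g i (A (x j) - o) ≤ 1 := by
  classical
  have : NeZero n := ⟨by omega⟩
  have hmem : ∀ i, x i ∈ affineSpan ℝ (range x) := fun i => subset_affineSpan ℝ _ ⟨i, rfl⟩
  obtain ⟨y, hy⟩ : ∃ y : Fin n → ℂ, ∀ i, y i = A (x i) := ⟨fun i => A (x i), fun _ => rfl⟩
  have hyinj : Function.Injective y := fun i j hij => hx (hA _ (hmem i) _ (hmem j) (by rw [← hy, ← hy, hij]))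
  have himg : A '' convexHull ℝ (range x) = convexHull ℝ (range y) := by
    rw [A.image_convexHull, ← range_comp]
    congr 1
    congr 1
    funext i
    exact (hy i).symm
  rcases (interior (convexHull ℝ (range y))).eq_empty_or_nonempty with hempty | ⟨o, ho⟩
  · -- the points are collinear
    exfalso
    have h1 : affineSpan ℝ (range y) ≠ ⊤ := by
      intro h
      have h2 := interior_convexHull_nonempty_iff_affineSpan_eq_top.2 h
      rw [hempty] at h2
      exact Set.not_nonempty_empty h2
    have h2 : vectorSpan ℝ (range y) ≠ ⊤ := by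
      intro h
      apply h1
      have := (AffineSubspace.affineSpan_eq_top_iff_vectorSpan_eq_top_of_nonempty ℝ ℂ ℂ
        (range_nonempty y)).2 h
      exact this
    have h3 : Collinear ℝ (range y) := by
      rw [collinear_iff_finrank_le_one]
      have h4 := Submodule.finrank_lt h2
      rw [Complex.finrank_real_complex] at h4
      omega
    obtain ⟨v, hv⟩ := (collinear_iff_of_mem (mem_range_self (f := y) 0)).1 h3
    choose r hr using fun i : Fin n => hv (y i) (mem_range_self i)
    simp only [vadd_eq_add] at hr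
    have hv0 : v ≠ 0 := by
      rintro rfl
      have h5 : y ⟨0, by omega⟩ = y ⟨1, by omega⟩ := by
        rw [hr ⟨0, by omega⟩, hr ⟨1, by omega⟩, smul_zero, smul_zero]
      have h6 := congrArg Fin.val (hyinj h5)
      simp at h6
    have hvv : v.re * v.re + v.im * v.im ≠ 0 := by
      intro h
      apply hv0
      have h5 : v.re = 0 := by nlinarith [mul_self_nonneg v.re, mul_self_nonneg v.im]
      have h6 : v.im = 0 := by nlinarith [mul_self_nonneg v.re, mul_self_nonneg v.im]
      exact Complex.ext h5 h6
    obtain ⟨G, hG⟩ : ∃ G : ℂ →ₗ[ℝ] ℝ, ∀ w, G w = v.re * w.re + v.im * w.im :=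
      ⟨v.re • Complex.reLm + v.im • Complex.imLm, fun w => by simp⟩
    have hline : ∀ q ∈ affineSpan ℝ (range x), ∃ t : ℝ, A q = t • v + y 0 := by
      intro q hq
      have h5 : affineSpan ℝ (range x) ≤
          (AffineSubspace.mk' (y 0) (Submodule.span ℝ {v})).comap A.toAffineMap := by
        rw [affineSpan_le]
        rintro _ ⟨i, rfl⟩
        rw [SetLike.mem_coe, AffineSubspace.mem_comap, AffineSubspace.mem_mk', Submodule.mem_span_singleton]
        refine ⟨r i, ?_⟩
        rw [LinearMap.coe_toAffineMap, ← hy, hr i, vsub_eq_sub, add_sub_cancel_right]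
      have h6 := h5 hq
      rw [AffineSubspace.mem_comap, AffineSubspace.mem_mk', Submodule.mem_span_singleton] at h6
      obtain ⟨t, ht⟩ := h6
      refine ⟨t, ?_⟩
      rw [ht, LinearMap.coe_toAffineMap, vsub_eq_sub, sub_add_cancel]
    have hGt : ∀ t : ℝ, G (t • v + y 0) = t * (v.re * v.re + v.im * v.im) + G (y 0) := by
      intro t
      rw [map_add, map_smul, hG v, smul_eq_mul]
    obtain ⟨i, hi⟩ := exists_interior_of_line hn (x := x) (G ∘ₗ A) (by
      intro i j hij
      simp only [LinearMap.comp_apply] at hij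
      rw [← hy, ← hy, hr i, hr j, hGt, hGt] at hij
      have h5 : r i = r j := mul_right_cancel₀ hvv (add_right_cancel hij)
      apply hyinj
      rw [hr i, hr j, h5]) (by
      intro q hq q' hq' h
      obtain ⟨t, ht⟩ := hline q hq
      obtain ⟨t', ht'⟩ := hline q' hq'
      simp only [LinearMap.comp_apply] at h
      rw [ht, ht', hGt, hGt] at h
      have h5 : t = t' := mul_right_cancel₀ hvv (add_right_cancel h)
      exact hA q hq q' hq' (by rw [ht, ht', h5]))
    exact hw i hi
  · -- the main case
    have hnot : ∀ i, y i ∉ interior (convexHull ℝ (range y)) := by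
      intro i h
      apply hw i
      refine mem_intrinsicInterior_of A ?_ (subset_convexHull ℝ _ (mem_range_self i)) ?_
      · rw [affineSpan_convexHull]
        exact hA
      · rw [himg, ← hy]
        exact h
    have hex : ∀ i, ∃ g : ℂ →L[ℝ] ℝ, g (y i - o) = 1 ∧ ∀ j, g (y j - o) ≤ 1 := by
      intro i
      obtain ⟨f, hf⟩ := geometric_hahn_banach_open_point (convex_convexHull ℝ (range y)).interior
        isOpen_interior (hnot i)
      have h1 := hf o ho
      have h2 : ∀ j, f (y j) ≤ f (y i) := by
        intro j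
        have h3 : y j ∈ closure (interior (convexHull ℝ (range y))) := by
          rw [(convex_convexHull ℝ (range y)).closure_interior_eq_closure_of_nonempty_interior ⟨o, ho⟩]
          exact subset_closure (subset_convexHull ℝ _ (mem_range_self j))
        have h4 : closure (interior (convexHull ℝ (range y))) ⊆ {w | f w ≤ f (y i)} :=
          closure_minimal (fun w hw => (hf w hw).le) (isClosed_le f.continuous continuous_const)
        exact h4 h3
      have hd : 0 < f (y i) - f o := by linarith
      refine ⟨(f (y i) - f o)⁻¹ • f, ?_, fun j => ?_⟩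
      · rw [smul_apply, map_sub, smul_eq_mul, inv_mul_cancel₀ hd.ne']
      · rw [smul_apply, map_sub, smul_eq_mul, inv_mul_le_iff₀ hd, mul_one]
        linarith [h2 j]
    choose g hg1 hg2 using hex
    refine ⟨o, g, ?_, fun i => ?_, fun i j => ?_⟩
    · have h3 : (fun i => A (x i)) = y := funext fun i => (hy i).symm
      rw [h3]
      exact interior_subset ho
    · rw [← hy]
      exact hg1 i
    · rw [← hy]
      exact hg2 i j

end Pool.Agent.H64.CW
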