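import Pool.Agent.H64.CW.Exit

/-!
# The array of a limit of strictly convex positions
-/

set_option autoImplicit false

open Set Filter Topology

namespace Pool.Agent.H64.CW

open Pool.Agent.H64.Hyp4
open Pool.Agent.H64.CC
open Pool.Agent.H40.Atiyah (KArr)

theorem continuous_ex : Continuous ex := by
  unfold ex
  fun_prop

theorem exists_warr {n : ℕ} (hn : 2 ≤ n) {z : Fin n → ℂ} (hz : ∀ i, ‖z i‖ < 1) (hzi : Function.Injective z)
    {ze : ℕ → Fin n → ℂ} (ht : ∀ i, Tendsto (fun k => ze k i) atTop (𝓝 (z i)))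
    (hci : ∀ k, ConvexIndependent ℝ (ze k)) (hze : ∀ k i, ‖ze k i‖ < 1) :
    ∃ (σ : Equiv.Perm (Fin n)) (u : ℤ → ℤ → ℝ), WArr n u ∧ ∀ a b : Fin n, b ≠ a → ∀ s : ℝ, 0 < s →
      ‖z (σ a) + s • (z (σ b) - z (σ a))‖ = 1 →
      z (σ a) + s • (z (σ b) - z (σ a)) = ex (u ((a : ℕ) : ℤ) (lft a b)) := by
  choose σ u hu hexit using fun k => exists_karr_fin hn (hci k) (hze k)
  choose v hv hvu hvb using fun k => exists_normalised hn (hu k)
  obtain ⟨U, hU⟩ : ∃ U : Ultrafilter ℕ, (U : Filter ℕ) ≤ atTop := ⟨Ultrafilter.of atTop, Ultrafilter.of_le atTop⟩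
  have hlim : ∀ i j : ℤ, ∃ L : ℝ, Tendsto (fun k => v k i j) U (𝓝 L) := by
    intro i j
    obtain ⟨L, -, hL⟩ := (isCompact_Icc (a := 2 * Real.pi * (i / n : ℤ)) (b := 2 * Real.pi * (i / n : ℤ) +
      6 * Real.pi)).ultrafilter_le_nhds (U.map fun k => v k i j) (by
        rw [le_principal_iff, Ultrafilter.mem_coe, Ultrafilter.mem_map]
        exact Filter.univ_mem' fun k => hvb k i j)
    exact ⟨L, hL⟩
  choose L hL using hlim
  obtain ⟨σ₀, hσ₀⟩ : ∃ σ₀, ∀ᶠ k in (U : Filter ℕ), σ k = σ₀ := by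
    obtain ⟨σ₀, h⟩ := Ultrafilter.eq_pure_of_finite (U.map σ)
    refine ⟨σ₀, ?_⟩
    have h1 : ({σ₀} : Set (Equiv.Perm (Fin n))) ∈ U.map σ := by
      rw [h]
      exact Ultrafilter.mem_pure.2 (mem_singleton σ₀)
    exact h1
  have htU : ∀ i, Tendsto (fun k => ze k i) U (𝓝 (z i)) := fun i => (ht i).mono_left hU
  refine ⟨σ₀, L, ⟨?_, ?_, ?_, ?_⟩, ?_⟩
  · intro i j
    refine tendsto_nhds_unique (hL (i + n) (j + n)) ?_
    simp only [(hv _).per]
    exact (hL i j).add_const _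
  · intro i j h1 h2
    exact le_of_tendsto_of_tendsto' (hL _ _) (hL _ _) fun k => ((hv k).row i j h1 h2).le
  · intro i j h1 h2
    exact le_of_tendsto_of_tendsto' (hL _ _) (hL _ _) fun k => ((hv k).col i j h1 h2).le
  · intro i
    exact le_of_tendsto_of_tendsto' (hL _ _) (hL _ _) fun k => ((hv k).diag i).le
  · intro a b hab s hs hs1
    obtain ⟨l1, l2⟩ := lft_mem hab
    have hne : z (σ₀ b) - z (σ₀ a) ≠ 0 := sub_ne_zero.2 fun h => hab (σ₀.injective (hzi h))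
    have hdir : Tendsto (fun k => ze k (σ₀ b) - ze k (σ₀ a)) U (𝓝 (z (σ₀ b) - z (σ₀ a))) :=
      (htU _).sub (htU _)
    have hδ : 0 < ‖z (σ₀ b) - z (σ₀ a)‖ / 2 := half_pos (norm_pos_iff.2 hne)
    have hbig : ∀ᶠ k in (U : Filter ℕ), ‖z (σ₀ b) - z (σ₀ a)‖ / 2 < ‖ze k (σ₀ b) - ze k (σ₀ a)‖ :=
      hdir.norm.eventually_const_lt (half_lt_self (norm_pos_iff.2 hne))
    have hsk : ∀ k, ∃ t : ℝ, 0 < t ∧ ‖ze k (σ₀ a) + t • (ze k (σ₀ b) - ze k (σ₀ a))‖ = 1 := by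
      intro k
      refine exists_exit (hze k _) (sub_ne_zero.2 fun h => hab ?_)
      exact σ₀.injective ((hci k).injective h)
    choose t ht0 ht1 using hsk
    have hbd : ∀ᶠ k in (U : Filter ℕ), t k ∈ Icc 0 (2 / (‖z (σ₀ b) - z (σ₀ a)‖ / 2)) := by
      filter_upwards [hbig] with k hk
      refine ⟨(ht0 k).le, ?_⟩
      rw [le_div_iff₀ hδ]
      have h1 : ‖t k • (ze k (σ₀ b) - ze k (σ₀ a))‖ ≤ 2 := by
        have h2 := norm_sub_le (ze k (σ₀ a) + t k • (ze k (σ₀ b) - ze k (σ₀ a))) (ze k (σ₀ a))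
        rw [add_sub_cancel_left, ht1] at h2
        linarith [hze k (σ₀ a)]
      rw [norm_smul, Real.norm_of_nonneg (ht0 k).le] at h1
      have h3 := mul_le_mul_of_nonneg_left hk.le (ht0 k).le
      linarith
    obtain ⟨t', -, ht'⟩ := (isCompact_Icc (a := (0 : ℝ)) (b := 2 / (‖z (σ₀ b) - z (σ₀ a)‖ / 2))).ultrafilter_le_nhds
      (U.map t) (by
        rw [le_principal_iff, Ultrafilter.mem_coe, Ultrafilter.mem_map]
        exact hbd)
    have htt : Tendsto t U (𝓝 t') := ht'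
    have hpt : Tendsto (fun k => ze k (σ₀ a) + t k • (ze k (σ₀ b) - ze k (σ₀ a))) U
        (𝓝 (z (σ₀ a) + t' • (z (σ₀ b) - z (σ₀ a)))) := (htU _).add (htt.smul hdir)
    have hn1 : ‖z (σ₀ a) + t' • (z (σ₀ b) - z (σ₀ a))‖ = 1 := by
      refine tendsto_nhds_unique hpt.norm ?_
      simp only [ht1]
      exact tendsto_const_nhds
    have ht'0 : 0 < t' := by
      have h1 : 0 ≤ t' := ge_of_tendsto' htt fun k => (ht0 k).le
      rcases h1.eq_or_lt with h2 | h2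
      · exfalso
        rw [← h2, zero_smul, add_zero] at hn1
        linarith [hz (σ₀ a)]
      · exact h2
    have hst : s = t' := exit_unique (hz _) hs ht'0 hs1 hn1
    rw [hst]
    have h1 : Tendsto (fun k => ex (v k ((a : ℕ) : ℤ) (lft a b))) U (𝓝 (ex (L ((a : ℕ) : ℤ) (lft a b)))) :=
      (continuous_ex.tendsto _).comp (hL _ _)
    refine tendsto_nhds_unique hpt (h1.congr' ?_)
    filter_upwards [hσ₀] with k hk
    rw [hvu k _ _ l1 l2]
    have h2 := hexit k a b hab (t k) (ht0 k)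
    rw [hk] at h2
    exact (h2 (ht1 k)).symm

end Pool.Agent.H64.CW
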