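import Mathlib

/-!
# Perturbation of weakly convex positions to strictly convex positions
-/

set_option autoImplicit false

open Set Filter Topology

namespace Pool.Agent.H64.CW

/-- a lower bound for finitely many positive numbers -/
theorem exists_lower {n : ℕ} (r : Fin n → ℝ) (hr : ∀ i, 0 < r i) : ∃ R : ℝ, 0 < R ∧ ∀ i, R ≤ r i := by
  rcases isEmpty_or_nonempty (Fin n) with h | h
  · exact ⟨1, one_pos, fun i => (h.false i).elim⟩
  · obtain ⟨a, ha⟩ := Finite.exists_min r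
    exact ⟨r a, hr a, ha⟩

theorem perturb {n : ℕ} {y : Fin n → ℂ} (hy : Function.Injective y) {o : ℂ} {g : Fin n → (ℂ →L[ℝ] ℝ)}
    (hg1 : ∀ i, g i (y i - o) = 1) (hg2 : ∀ i j, g i (y j - o) ≤ 1) :
    ∃ s : ℝ → Fin n → ℝ, (∀ i, Tendsto (fun ε => s ε i) (𝓝 0) (𝓝 1)) ∧
      (∀ ε, 0 < ε → ε < 1 → ∀ i, 0 < s ε i ∧ s ε i ≤ 1) ∧
      ∀ ε, 0 < ε → ε < 1 → ConvexIndependent ℝ fun i => o + s ε i • (y i - o) := by
  obtain ⟨w, hw⟩ : ∃ w : Fin n → ℂ, ∀ i, w i = y i - o := ⟨fun i => y i - o, fun _ => rfl⟩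
  simp only [← hw] at hg1 hg2 ⊢
  have hw0 : ∀ i, w i ≠ 0 := by
    intro i h
    have := hg1 i
    rw [h, map_zero] at this
    exact zero_ne_one this
  have hwinj : Function.Injective w := by
    intro i j hij
    rw [hw, hw, sub_left_inj] at hij
    exact hy hij
  have hr : ∀ i, 0 < ‖w i‖ := fun i => norm_pos_iff.2 (hw0 i)
  obtain ⟨R, hR0, hR⟩ := exists_lower (fun i => ‖w i‖) hr
  obtain ⟨e, he⟩ : ∃ e : Fin n → ℂ, ∀ i, e i = ‖w i‖⁻¹ • w i := ⟨fun i => ‖w i‖⁻¹ • w i, fun _ => rfl⟩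
  have he1 : ∀ i, ‖e i‖ = 1 := by
    intro i
    rw [he, norm_smul, norm_inv, norm_norm, inv_mul_cancel₀ (hr i).ne']
  have hew : ∀ i, w i = ‖w i‖ • e i := by
    intro i
    rw [he, smul_smul, mul_inv_cancel₀ (hr i).ne', one_smul]
  -- the directions are different
  have hee : ∀ i j, i ≠ j → e i ≠ e j := by
    intro i j hij h
    have h1 : w i = (‖w i‖ * ‖w j‖⁻¹) • w j := by
      rw [mul_smul, ← he j, ← h]
      exact hew i
    obtain ⟨t, ht⟩ : ∃ t : ℝ, t = ‖w i‖ * ‖w j‖⁻¹ := ⟨_, rfl⟩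
    have ht0 : 0 < t := by
      rw [ht]
      exact mul_pos (hr i) (inv_pos.2 (hr j))
    rw [← ht] at h1
    have h2 := hg1 i
    rw [h1, map_smul, smul_eq_mul] at h2
    have h3 := hg2 i j
    have h4 := hg2 j i
    rw [h1, map_smul, smul_eq_mul, hg1 j, mul_one] at h4
    have h5 : t = 1 := by
      apply le_antisymm h4
      nlinarith
    rw [h5, one_smul] at h1
    exact hij (hwinj h1)
  obtain ⟨l, hl⟩ : ∃ l : Fin n → ℝ, ∀ i, l i = ‖w i‖ / R := ⟨fun i => ‖w i‖ / R, fun _ => rfl⟩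
  have hl1 : ∀ i, 1 ≤ l i := by
    intro i
    rw [hl, le_div_iff₀ hR0, one_mul]
    exact hR i
  have hden : ∀ ε : ℝ, 0 ≤ ε → ∀ i, 1 ≤ 1 + ε * (l i - 1) := by
    intro ε hε i
    have := mul_nonneg hε (sub_nonneg.2 (hl1 i))
    linarith
  refine ⟨fun ε i => (1 + ε * (l i - 1))⁻¹, ?_, ?_, ?_⟩
  · intro i
    have h1 : Tendsto (fun ε : ℝ => 1 + ε * (l i - 1)) (𝓝 0) (𝓝 (1 + 0 * (l i - 1))) :=
      Continuous.tendsto (by fun_prop) 0
    rw [zero_mul, add_zero] at h1
    have h2 := h1.inv₀ one_ne_zero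
    rwa [inv_one] at h2
  · intro ε hε _ i
    have h1 := hden ε hε.le i
    exact ⟨inv_pos.2 (by linarith), inv_le_one_of_one_le₀ h1⟩
  · intro ε hε hε1
    obtain ⟨G, hG⟩ : ∃ G : Fin n → (ℂ →ₗ[ℝ] ℝ), ∀ i v, G i v = (1 - ε) * g i v + (ε / R) * inner ℝ (e i) v := by
      refine ⟨fun i => (1 - ε) • (g i : ℂ →ₗ[ℝ] ℝ) + (ε / R) • (innerSL ℝ (e i) : ℂ →ₗ[ℝ] ℝ), fun i v => ?_⟩
      simp
    have hGw : ∀ i j, G i (w j) = (1 - ε) * g i (w j) + ε * l j * inner ℝ (e i) (e j) := by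
      intro i j
      rw [hG, hl]
      conv_lhs => rw [hew j]
      rw [real_inner_smul_right, ← hew j]
      ring
    have hs : ∀ i, (1 - ε) + ε * l i = 1 + ε * (l i - 1) := fun i => by ring
    have hdiag : ∀ i, G i ((1 + ε * (l i - 1))⁻¹ • w i) = 1 := by
      intro i
      rw [map_smul, hGw, hg1, real_inner_self_eq_norm_sq, he1, smul_eq_mul, one_pow, mul_one, mul_one, hs]
      exact inv_mul_cancel₀ (by have := hden ε hε.le i; linarith)
    have hoff : ∀ i j, i ≠ j → G i ((1 + ε * (l j - 1))⁻¹ • w j) < 1 := by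
      intro i j hij
      have h0 := hden ε hε.le j
      have hpos : 0 < 1 + ε * (l j - 1) := by linarith
      rw [map_smul, hGw, smul_eq_mul, inv_mul_lt_iff₀ hpos, mul_one, ← hs]
      have h1 : inner ℝ (e i) (e j) < 1 :=
        (inner_lt_one_iff_real_of_norm_eq_one (he1 i) (he1 j)).2 (hee i j hij)
      have h2 := hg2 i j
      have h3 : ε * l j * inner ℝ (e i) (e j) < ε * l j * 1 :=
        mul_lt_mul_of_pos_left h1 (mul_pos hε (by linarith [hl1 j]))
      nlinarith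
    intro S i hi
    by_contra hiS
    have hsub : convexHull ℝ ((fun i => o + (1 + ε * (l i - 1))⁻¹ • w i) '' S) ⊆ {v | G i (v - o) < 1} := by
      apply convexHull_min
      · rintro _ ⟨j, hj, rfl⟩
        show G i (o + (1 + ε * (l j - 1))⁻¹ • w j - o) < 1
        rw [add_sub_cancel_left]
        exact hoff i j fun h => hiS (by rw [h]; exact hj)
      · intro p hp q hq a b ha hb hab
        have hp' : G i (p - o) < 1 := hp
        have hq' : G i (q - o) < 1 := hq
        show G i (a • p + b • q - o) < 1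
        have h1 : a • p + b • q - o = a • (p - o) + b • (q - o) := by
          have h2 : o = a • o + b • o := by rw [← add_smul, hab, one_smul]
          conv_lhs => rw [h2]
          rw [smul_sub, smul_sub]
          abel
        rw [h1, map_add, map_smul, map_smul, smul_eq_mul, smul_eq_mul]
        rcases ha.eq_or_lt with h2 | h2
        · rw [← h2, zero_add] at hab
          rw [← h2, hab]
          linarith
        · have h3 := mul_lt_mul_of_pos_left hp' h2
          have h4 := mul_le_mul_of_nonneg_left hq'.le hb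
          linarith
    have h1 : G i (o + (1 + ε * (l i - 1))⁻¹ • w i - o) < 1 := hsub hi
    rw [add_sub_cancel_left, hdiag] at h1
    exact lt_irrefl _ h1

end Pool.Agent.H64.CW
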