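import Pool.Agent.H64.CW.Plane
import Pool.Agent.H64.CW.Hull
import Pool.Agent.H64.CW.Pert
import Pool.Agent.H64.CW.Lim

/-!
# Coplanar points in weakly convex position: the array of the end points at infinity

`weak_geometry`: distinct points of the ball in one plane, none in the relative interior of the convex hull
(the sides may contain further points).
-/

set_option autoImplicit false

open Set Filter Topology

namespace Pool.Agent.H64.CW

open Pool.Agent.H64.Hyp4
open Pool.Agent.H64.CC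
open Pool.Agent.Results.MP_1fedf0_gt.CollinearPlusOne
open Pool.Agent.H40.Atiyah (KArr)

theorem WArr.mono_aux {n : ℕ} {u : ℤ → ℤ → ℝ} (H : WArr n u) : ∀ k : ℕ, ∀ i j i' j' : ℤ, i ≤ i' → j ≤ j' →
    i < j → j < i + n → i' < j' → j' < i' + n → (i' - i) + (j' - j) = k → u i j ≤ u i' j' := by
  intro k
  induction k using Nat.strong_induction_on with
  | _ k ih =>
    intro i j i' j' h1 h2 h3 h4 h5 h6 h7
    rcases Nat.eq_zero_or_pos k with rfl | hk
    · have e1 : i = i' := by push_cast at h7; omega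
      have e2 : j = j' := by push_cast at h7; omega
      subst e1; subst e2
      exact le_refl _
    by_cases c1 : j < j' ∧ j + 1 < i + n
    · have := ih (k - 1) (by omega) i (j + 1) i' j' h1 (by omega) (by omega) c1.2 h5 h6 (by omega)
      exact (H.row i j h3 c1.2).trans this
    · by_cases c2 : i < i' ∧ i + 1 < j
      · have := ih (k - 1) (by omega) (i + 1) j i' j' (by omega) h2 c2.2 (by omega) h5 h6 (by omega)
        exact (H.col i j c2.2 h4).trans this
      · have e1 : j = i + 1 := by omega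
        have e2 : i < i' := by omega
        have e3 : j < j' := by omega
        subst e1
        have := ih (k - 2) (by omega) (i + 1) (i + 2) i' j' (by omega) (by omega) (by omega)
          (by omega) h5 h6 (by omega)
        exact (H.diag i).trans this

theorem WArr.le {n : ℕ} {u : ℤ → ℤ → ℝ} (H : WArr n u) {i j i' j' : ℤ} (h1 : i ≤ i') (h2 : j ≤ j')
    (h3 : i < j) (h4 : j < i + n) (h5 : i' < j') (h6 : j' < i' + n) : u i j ≤ u i' j' :=
  H.mono_aux ((i' - i) + (j' - j)).toNat i j i' j' h1 h2 h3 h4 h5 h6 (by omega)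

theorem sin_pos_of_ex_ne {α β : ℝ} (h1 : α ≤ β) (h2 : β ≤ α + 2 * Real.pi) (h : ex α ≠ ex β) :
    0 < Real.sin ((β - α) / 2) := by
  apply Real.sin_pos_of_pos_of_lt_pi
  · rcases h1.eq_or_lt with h3 | h3
    · exact absurd (by rw [h3]) h
    · linarith
  · rcases h2.eq_or_lt with h3 | h3
    · exfalso
      apply h
      have h4 := ex_add_int α 1
      rw [h3, ← h4]
      congr 1
      push_cast
      ring
    · linarith

theorem convexIndependent_of_le_two {n : ℕ} (hn : n ≤ 2) {y : Fin n → ℂ} (hy : Function.Injective y) :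
    ConvexIndependent ℝ y := by
  intro S i hi
  by_contra hiS
  have h1 : S.Subsingleton := by
    intro a ha b hb
    have h2 : a ≠ i := fun h => hiS (by rw [← h]; exact ha)
    have h3 : b ≠ i := fun h => hiS (by rw [← h]; exact hb)
    apply Fin.ext
    have h4 : (a : ℕ) ≠ i := fun h => h2 (Fin.ext h)
    have h5 : (b : ℕ) ≠ i := fun h => h3 (Fin.ext h)
    omega
  have h2 : convexHull ℝ (y '' S) = y '' S := ((h1.image y).convex).convexHull_eq
  rw [h2] at hi
  obtain ⟨j, hj, hji⟩ := hi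
  exact hiS (by rw [← hy hji]; exact hj)

/-- **The geometry.**  The spinors of the end points `p i j` in terms of a weakly monotone array. -/
theorem weak_geometry {n : ℕ} (hn : 2 ≤ n) {x : Fin n → Fin 3 → ℝ} {p : Fin n → Fin n → Fin 3 → ℝ}
    (hx : ∀ i, ∑ k : Fin 3, (x i k) ^ 2 < 1)
    (hp : ∀ i j, i ≠ j → (∑ k : Fin 3, (p i j k) ^ 2 = 1) ∧
      ∃ t : ℝ, 0 < t ∧ p i j = x i + t • (x j - x i))
    (hcop : Coplanar ℝ (range x)) (hinj : Function.Injective x)
    (hw : ∀ i, x i ∉ intrinsicInterior ℝ (convexHull ℝ (range x))) :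
    ∃ (σ : Equiv.Perm (Fin n)) (u : ℤ → ℤ → ℝ) (e₁ e₂ : ℂ × ℂ), WArr n u ∧ br e₁ e₂ ≠ 0 ∧
      (∀ a b : Fin n, b ≠ a → ∃ c : ℂ, c ≠ 0 ∧ spin (p (σ a) (σ b)) =
        c • ((Real.cos (u ((a : ℕ) : ℤ) (lft a b) / 2) : ℂ) • e₂ +
          (Real.sin (u ((a : ℕ) : ℤ) (lft a b) / 2) : ℂ) • e₁)) ∧
      ∀ a b : Fin n, a < b →
        0 < Real.sin ((u ((b : ℕ) : ℤ) (((a : ℕ) : ℤ) + n) - u ((a : ℕ) : ℤ) ((b : ℕ) : ℤ)) / 2) := by
  classical
  obtain ⟨o₀, ho₀⟩ : ∃ o₀ : Fin n, o₀ = ⟨0, by omega⟩ := ⟨_, rfl⟩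
  obtain ⟨m, d, hm, hd⟩ := exists_normal o₀ hcop
  have hdd : d ^ 2 < 1 := by
    have h1 := Finset.sum_mul_sq_le_sq_mul_sq Finset.univ m (x o₀)
    rw [hd o₀, hm, one_mul] at h1
    exact lt_of_le_of_lt h1 (hx o₀)
  obtain ⟨A, e₁, e₂, hbr, hAinj, hA1, hA2, hspin⟩ :=
    exists_plane hm (d := d) (by nlinarith) (by nlinarith)
  obtain ⟨z, hz⟩ : ∃ z : Fin n → ℂ, ∀ i, z i = A (x i) := ⟨fun i => A (x i), fun _ => rfl⟩
  have hz1 : ∀ i, ‖z i‖ < 1 := fun i => by rw [hz]; exact hA1 _ (hd i) (hx i)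
  have hzinj : Function.Injective z := fun i j hij =>
    hinj (hAinj _ _ (hd i) (hd j) (by rw [← hz, ← hz, hij]))
  -- the array
  obtain ⟨σ, u, hu, hexit⟩ : ∃ (σ : Equiv.Perm (Fin n)) (u : ℤ → ℤ → ℝ), WArr n u ∧
      ∀ a b : Fin n, b ≠ a → ∀ s : ℝ, 0 < s → ‖z (σ a) + s • (z (σ b) - z (σ a))‖ = 1 →
        z (σ a) + s • (z (σ b) - z (σ a)) = ex (u ((a : ℕ) : ℤ) (lft a b)) := by
    rcases Nat.lt_or_ge n 3 with h3 | h3
    · obtain ⟨σ, u, hu, h⟩ := exists_karr_fin hn (convexIndependent_of_le_two (by omega) hzinj) hz1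
      exact ⟨σ, u, WArr.of_karr hu, h⟩
    · have hspan : ∀ q ∈ affineSpan ℝ (range x), ∑ k, m k * q k = d := by
        obtain ⟨f, hf⟩ : ∃ f : (Fin 3 → ℝ) →ₗ[ℝ] ℝ, ∀ q, f q = ∑ k, m k * q k := by
          refine ⟨∑ k, m k • LinearMap.proj k, fun q => ?_⟩
          simp
        intro q hq
        have h1 : affineSpan ℝ (range x) ≤ (AffineSubspace.mk' d (⊥ : Submodule ℝ ℝ)).comap f.toAffineMap := by
          rw [affineSpan_le]
          rintro _ ⟨i, rfl⟩
          rw [SetLike.mem_coe, AffineSubspace.mem_comap, AffineSubspace.mem_mk', Submodule.mem_bot,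
            LinearMap.coe_toAffineMap, hf, hd, vsub_eq_sub, sub_self]
        have h2 := h1 hq
        rw [AffineSubspace.mem_comap, AffineSubspace.mem_mk', Submodule.mem_bot,
          LinearMap.coe_toAffineMap, hf, vsub_eq_sub, sub_eq_zero] at h2
        exact h2
      obtain ⟨o, g, ho, hg1, hg2⟩ := exists_support h3 hinj hw A
        fun q hq q' hq' h => hAinj q q' (hspan q hq) (hspan q' hq') h
      simp only [← hz] at ho hg1 hg2
      have ho1 : ‖o‖ < 1 := by
        have h1 : convexHull ℝ (range fun i => z i) ⊆ Metric.ball 0 1 := by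
          apply convexHull_min _ (convex_ball 0 1)
          rintro _ ⟨i, rfl⟩
          rw [mem_ball_zero_iff]
          exact hz1 i
        have h2 := h1 ho
        rwa [mem_ball_zero_iff] at h2
      obtain ⟨s, hs1, hs2, hs3⟩ := perturb hzinj hg1 hg2
      obtain ⟨ε, hε⟩ : ∃ ε : ℕ → ℝ, ∀ k, ε k = 1 / ((k : ℝ) + 2) := ⟨fun k => 1 / ((k : ℝ) + 2), fun _ => rfl⟩
      have hε0 : ∀ k, 0 < ε k := fun k => by
        rw [hε]
        positivity
      have hε1 : ∀ k, ε k < 1 := fun k => by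
        rw [hε, div_lt_one (by positivity)]
        have : (0 : ℝ) ≤ k := Nat.cast_nonneg k
        linarith
      have hεt : Tendsto ε atTop (𝓝 0) := by
        have h1 : Tendsto (fun k : ℕ => (k : ℝ) + 2) atTop atTop :=
          tendsto_atTop_add_const_right _ _ tendsto_natCast_atTop_atTop
        have h2 : ε = fun k : ℕ => ((k : ℝ) + 2)⁻¹ := funext fun k => by rw [hε, one_div]
        rw [h2]
        exact tendsto_inv_atTop_zero.comp h1
      refine exists_warr hn hz1 hzinj (ze := fun k i => o + s (ε k) i • (z i - o)) (fun i => ?_)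
        (fun k => hs3 _ (hε0 k) (hε1 k)) (fun k i => ?_)
      · have h1 : Tendsto (fun k => o + s (ε k) i • (z i - o)) atTop (𝓝 (o + (1 : ℝ) • (z i - o))) :=
          tendsto_const_nhds.add (((hs1 i).comp hεt).smul_const _)
        rwa [one_smul, add_sub_cancel] at h1
      · obtain ⟨h1, h2⟩ := hs2 _ (hε0 k) (hε1 k) i
        have h3 : o + s (ε k) i • (z i - o) = (1 - s (ε k) i) • o + s (ε k) i • z i := by
          rw [sub_smul, one_smul, smul_sub]
          abel
        have h4 := (convex_ball (0 : ℂ) 1) (mem_ball_zero_iff.2 ho1) (mem_ball_zero_iff.2 (hz1 i))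
          (sub_nonneg.2 h2) h1.le (by ring)
        rw [← h3, mem_ball_zero_iff] at h4
        exact h4
  -- the end points
  have hpt : ∀ a b : Fin n, b ≠ a → ∃ t : ℝ, 0 < t ∧ ‖z (σ a) + t • (z (σ b) - z (σ a))‖ = 1 ∧
      A (p (σ a) (σ b)) = z (σ a) + t • (z (σ b) - z (σ a)) ∧ ∑ k, m k * p (σ a) (σ b) k = d := by
    intro a b hab
    obtain ⟨h1, t, ht, h2⟩ := hp (σ a) (σ b) (fun h => hab (σ.injective h).symm)
    have h3 : ∑ k, m k * p (σ a) (σ b) k = d := by
      rw [h2]
      have h4 := hd (σ a)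
      have h5 := hd (σ b)
      simp only [Fin.sum_univ_three, Pi.add_apply, Pi.smul_apply, Pi.sub_apply, smul_eq_mul] at *
      linear_combination (1 - t) * h4 + t * h5
    have h4 : A (p (σ a) (σ b)) = z (σ a) + t • (z (σ b) - z (σ a)) := by
      rw [h2, map_add, map_smul, map_sub, ← hz, ← hz]
    refine ⟨t, ht, ?_, h4, h3⟩
    rw [← h4]
    exact hA2 _ h3 h1
  have hval : ∀ a b : Fin n, b ≠ a → A (p (σ a) (σ b)) = ex (u ((a : ℕ) : ℤ) (lft a b)) := by
    intro a b hab
    obtain ⟨t, ht, h1, h2, -⟩ := hpt a b hab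
    rw [h2]
    exact hexit a b hab t ht h1
  refine ⟨σ, u, e₁, e₂, hu, hbr, ?_, ?_⟩
  · intro a b hab
    obtain ⟨t, ht, h1, h2, h3⟩ := hpt a b hab
    exact hspin _ _ h3 (hp (σ a) (σ b) (fun h => hab (σ.injective h).symm)).1 (hval a b hab)
  · intro a b hab
    have ha := a.2
    have hb := b.2
    have hab' : (a : ℕ) < (b : ℕ) := hab
    have e1 : lft a b = ((b : ℕ) : ℤ) := by
      unfold lft
      rw [if_pos hab]
    have e2 : lft b a = ((a : ℕ) : ℤ) + n := by
      unfold lft
      rw [if_neg (not_lt.2 hab.le)]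
    apply sin_pos_of_ex_ne
    · exact hu.le (by omega) (by omega) (by omega) (by omega) (by omega) (by omega)
    · rw [← hu.per]
      exact hu.le (by omega) (by omega) (by omega) (by omega) (by omega) (by omega)
    · have g1 := hval a b hab.ne'
      have g2 := hval b a hab.ne
      rw [e1] at g1
      rw [e2] at g2
      rw [← g1, ← g2]
      obtain ⟨t, ht, h1, h2, -⟩ := hpt a b hab.ne'
      obtain ⟨t', ht', h1', h2', -⟩ := hpt b a hab.ne
      rw [h2, h2']
      exact exit_ne (hz1 _) (hz1 _) (fun h => hab.ne (σ.injective (hzinj h))) ht ht' h1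

/-- a strictly convex position is weakly convex -/
theorem not_mem_interior_of_convexIndependent {n : ℕ} {x : Fin n → Fin 3 → ℝ} (hn : 2 ≤ n)
    (hci : ConvexIndependent ℝ x) (i : Fin n) : x i ∉ intrinsicInterior ℝ (convexHull ℝ (range x)) := by
  classical
  intro h
  obtain ⟨j, hj⟩ : ∃ j : Fin n, j ≠ i := by
    have : Nontrivial (Fin n) := Fin.nontrivial_iff_two_le.2 hn
    exact exists_ne i
  have hxj : x j ≠ x i := fun h => hj (hci.injective h)
  rw [mem_intrinsicInterior] at h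
  obtain ⟨y, hy, hyi⟩ := h
  have hj' : x j ∈ affineSpan ℝ (convexHull ℝ (range x)) :=
    subset_affineSpan ℝ _ (subset_convexHull ℝ _ (mem_range_self j))
  obtain ⟨f, hf⟩ : ∃ f : ℝ → affineSpan ℝ (convexHull ℝ (range x)),
      ∀ t, (f t : Fin 3 → ℝ) = AffineMap.lineMap (y : Fin 3 → ℝ) (x j) t :=
    ⟨fun t => ⟨_, AffineMap.lineMap_mem t y.2 hj'⟩, fun _ => rfl⟩
  have hfc : Continuous f := by
    rw [continuous_induced_rng]
    have h1 : (Subtype.val ∘ f) = fun t : ℝ => (y : Fin 3 → ℝ) + t • (x j - y) := by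
      funext t
      rw [Function.comp_apply, hf, AffineMap.lineMap_apply, vsub_eq_sub, vadd_eq_add, add_comm]
    rw [h1]
    exact continuous_const.add (continuous_id.smul continuous_const)
  have hf0 : f 0 = y := Subtype.ext (by rw [hf, AffineMap.lineMap_apply_zero])
  have h1 : f ⁻¹' interior (Subtype.val ⁻¹' convexHull ℝ (range x)) ∈ 𝓝 (0 : ℝ) := by
    apply (isOpen_interior.preimage hfc).mem_nhds
    rw [mem_preimage, hf0]
    exact hy
  obtain ⟨δ, hδ, hball⟩ := Metric.mem_nhds_iff.1 h1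
  have h2 := hball (show -(δ / 2) ∈ Metric.ball (0 : ℝ) δ by
    rw [mem_ball_zero_iff, Real.norm_eq_abs, abs_neg, abs_of_pos (by linarith)]
    linarith)
  have h3 : (f (-(δ / 2)) : Fin 3 → ℝ) ∈ convexHull ℝ (range x) := by
    have h2' := interior_subset (mem_preimage.1 h2)
    exact h2'
  rw [hf, hyi, AffineMap.lineMap_apply, vsub_eq_sub, vadd_eq_add] at h3
  -- the hull as a join
  have h4 : range x = insert (x i) (x '' {k | k ≠ i}) := by
    ext q
    constructor
    · rintro ⟨k, rfl⟩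
      by_cases hk : k = i
      · rw [hk]
        exact mem_insert _ _
      · exact mem_insert_of_mem _ ⟨k, hk, rfl⟩
    · rintro (rfl | ⟨k, -, rfl⟩)
      · exact mem_range_self _
      · exact mem_range_self _
  have hT : x j ∈ convexHull ℝ (x '' {k | k ≠ i}) := subset_convexHull ℝ _ ⟨j, hj, rfl⟩
  have hne : (x '' {k | k ≠ i}).Nonempty := ⟨_, ⟨j, hj, rfl⟩⟩
  rw [h4, convexHull_insert hne, mem_convexJoin] at h3
  obtain ⟨p, hp, q, hq, hpq⟩ := h3
  rw [mem_singleton_iff] at hp
  subst hp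
  obtain ⟨a, b, ha, hb, hab, heq⟩ := hpq
  have hb0 : 0 < b := by
    rcases hb.eq_or_lt with hb' | hb'
    · exfalso
      rw [← hb', add_zero] at hab
      rw [← hb', hab, zero_smul, add_zero, one_smul, eq_comm, add_eq_right, smul_eq_zero] at heq
      rcases heq with h5 | h5
      · linarith
      · exact hxj (sub_eq_zero.1 h5)
    · exact hb'
  have hmem : x i ∈ convexHull ℝ (x '' {k | k ≠ i}) := by
    have hs : 0 < b + δ / 2 := by linarith
    have h5 : x i = (b / (b + δ / 2)) • q + ((δ / 2) / (b + δ / 2)) • x j := by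
      have h6 : (b + δ / 2) • x i = b • q + (δ / 2) • x j := by
        have ha' : a = 1 - b := by linarith
        rw [ha'] at heq
        have h7 : b • q = (-(δ / 2)) • (x j - x i) + x i - (1 - b) • x i := by
          rw [← heq]
          abel
        rw [h7]
        module
      have h8 : x i = (b + δ / 2)⁻¹ • ((b + δ / 2) • x i) := by
        rw [smul_smul, inv_mul_cancel₀ hs.ne', one_smul]
      rw [h8, h6, smul_add, smul_smul, smul_smul, div_eq_inv_mul b, div_eq_inv_mul (δ / 2)]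
    rw [h5]
    exact (convex_convexHull ℝ _) hq hT (by positivity) (by positivity) (by field_simp)
  exact hci {k | k ≠ i} i hmem rfl

end Pool.Agent.H64.CW
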