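import Pool.Agent.H64.CC.Main

/-!
# Planes of the ball: spinors in one real form

For the plane `⟨m, q⟩ = d` of the ball there are a linear map `A` to `ℂ`, injective on the plane, which maps
the points of the ball (the sphere) in the plane to points of the unit disc (unit circle), and a basis
`e₁, e₂` of `ℂ²` such that the spinor of a point `p` of the sphere in the plane, `A p = exp (i θ)`, is a
multiple of `cos (θ / 2) e₂ + sin (θ / 2) e₁`.
-/

set_option autoImplicit false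

namespace Pool.Agent.H64.CW

open Pool.Agent.H64.Hyp4
open Pool.Agent.H64.CC
open Pool.Agent.Results.MP_1fedf0_gt.CollinearPlusOne

/-- every vector in terms of a basis -/
theorem br_basis (a b s : ℂ × ℂ) : br a b • s = br a s • b - br b s • a := by
  unfold br
  ext
  · simp only [Prod.fst_sub, Prod.smul_fst, smul_eq_mul]
    ring
  · simp only [Prod.snd_sub, Prod.smul_snd, smul_eq_mul]
    ring

theorem exists_plane {m : Fin 3 → ℝ} (hm : ∑ k, m k ^ 2 = 1) {d : ℝ} (hd1 : -1 < d) (hd2 : d < 1) :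
    ∃ (A : (Fin 3 → ℝ) →ₗ[ℝ] ℂ) (e₁ e₂ : ℂ × ℂ), br e₁ e₂ ≠ 0 ∧
      (∀ q q' : Fin 3 → ℝ, ∑ k, m k * q k = d → ∑ k, m k * q' k = d → A q = A q' → q = q') ∧
      (∀ q : Fin 3 → ℝ, ∑ k, m k * q k = d → ∑ k, q k ^ 2 < 1 → ‖A q‖ < 1) ∧
      (∀ q : Fin 3 → ℝ, ∑ k, m k * q k = d → ∑ k, q k ^ 2 = 1 → ‖A q‖ = 1) ∧
      ∀ (p : Fin 3 → ℝ) (θ : ℝ), ∑ k, m k * p k = d → ∑ k, p k ^ 2 = 1 → A p = ex θ →
        ∃ c : ℂ, c ≠ 0 ∧
          spin p = c • ((Real.cos (θ / 2) : ℂ) • e₂ + (Real.sin (θ / 2) : ℂ) • e₁) := by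
  obtain ⟨u, v, a, b, ha, hb, huv, hNu, hNv, hL, hbr⟩ := exists_frame hm
  have hM : 0 < a * (1 - d) := mul_pos ha (by linarith)
  have hM' : 0 < b * (1 + d) := mul_pos hb (by linarith)
  obtain ⟨R, hR0, hR⟩ : ∃ R : ℝ, 0 < R ∧ R ^ 2 * (a * (1 - d)) = b * (1 + d) := by
    refine ⟨Real.sqrt (b * (1 + d) / (a * (1 - d))), Real.sqrt_pos.2 (by positivity), ?_⟩
    rw [Real.sq_sqrt (by positivity), div_mul_cancel₀ _ hM.ne']
  have hR0c : (R : ℂ) ≠ 0 := by exact_mod_cast hR0.ne'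
  have hL0 : Lam v u 0 = 0 := by
    have := hL 0
    simp at this
    exact this
  obtain ⟨c0, hc0⟩ : ∃ c0 : ℝ, c0 = R * (a * (1 - d)) := ⟨_, rfl⟩
  have hc0pos : 0 < c0 := by rw [hc0]; positivity
  have hc0c : (c0 : ℂ) ≠ 0 := by exact_mod_cast hc0pos.ne'
  have hc0sq : c0 ^ 2 = a * b * (1 - d ^ 2) := by
    rw [hc0]
    have : (R * (a * (1 - d))) ^ 2 = R ^ 2 * (a * (1 - d)) * (a * (1 - d)) := by ring
    rw [this, hR]
    ring
  obtain ⟨A, hA⟩ : ∃ A : (Fin 3 → ℝ) →ₗ[ℝ] ℂ, ∀ q, A q = Lam v u q / (c0 : ℂ) := by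
    refine ⟨⟨⟨fun q => Lam v u q / (c0 : ℂ), ?_⟩, ?_⟩, fun q => rfl⟩
    · intro p q
      show Lam v u (p + q) / (c0 : ℂ) = Lam v u p / (c0 : ℂ) + Lam v u q / (c0 : ℂ)
      rw [Lam_add hL0]
      ring
    · intro t q
      show Lam v u (t • q) / (c0 : ℂ) = t • (Lam v u q / (c0 : ℂ))
      rw [Lam_smul hL0, Complex.real_smul]
      ring
  have hnorm : ∀ q : Fin 3 → ℝ, ∑ k, m k * q k = d →
      ‖A q‖ ^ 2 * c0 ^ 2 = a * b * (∑ k, q k ^ 2 - d ^ 2) := by
    intro q hq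
    rw [hA, norm_div, Complex.norm_real, Real.norm_of_nonneg hc0pos.le, div_pow,
      ← Complex.normSq_eq_norm_sq, hL q, hq]
    field_simp
  have hab : 0 < a * b := mul_pos ha hb
  refine ⟨A, ((1 / 2 : ℂ)) • u + ((1 / (2 * R) : ℂ)) • v,
    ((-Complex.I / 2 : ℂ)) • u + ((Complex.I / (2 * R) : ℂ)) • v, ?_, ?_, ?_, ?_, ?_⟩
  · have e : br (((1 / 2 : ℂ)) • u + ((1 / (2 * R) : ℂ)) • v)
        (((-Complex.I / 2 : ℂ)) • u + ((Complex.I / (2 * R) : ℂ)) • v) =
        Complex.I / (2 * R) * br u v := by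
      unfold br
      simp only [Prod.fst_add, Prod.snd_add, Prod.smul_fst, Prod.smul_snd, smul_eq_mul]
      field_simp
      ring
    rw [e]
    exact mul_ne_zero (div_ne_zero Complex.I_ne_zero (mul_ne_zero two_ne_zero hR0c)) huv
  · intro q q' hq hq' h
    have h3 : Lam v u (q - q') = 0 := by
      have h1 : A (q - q') = 0 := by rw [map_sub, h, sub_self]
      rw [hA] at h1
      exact (div_eq_zero_iff.1 h1).resolve_right hc0c
    have h4 := hL (q - q')
    rw [h3, map_zero] at h4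
    have h5 : ∑ k, m k * (q - q') k = 0 := by
      simp only [Fin.sum_univ_three, Pi.sub_apply] at *
      linarith
    rw [h5] at h4
    have h6 : ∑ k, (q - q') k ^ 2 = 0 := by
      have h8 := (mul_eq_zero.1 h4.symm).resolve_left hab.ne'
      linarith
    have h8 := (Finset.sum_eq_zero_iff_of_nonneg (fun k _ => sq_nonneg ((q - q') k))).1 h6
    funext k
    have h9 := h8 k (Finset.mem_univ k)
    have h10 : (q - q') k = 0 := by
      rw [sq_eq_zero_iff] at h9
      exact h9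
    simpa [sub_eq_zero] using h10
  · intro q hq hq1
    have h1 := hnorm q hq
    have h3 : ‖A q‖ ^ 2 * c0 ^ 2 < 1 * c0 ^ 2 := by
      rw [h1, one_mul, hc0sq]
      nlinarith
    have h4 := lt_of_mul_lt_mul_right h3 (sq_nonneg c0)
    have h5 := norm_nonneg (A q)
    nlinarith
  · intro q hq hq1
    have h1 := hnorm q hq
    rw [hq1, hc0sq] at h1
    have h2 : a * b * (1 - d ^ 2) ≠ 0 := by
      rw [← hc0sq]
      positivity
    have h3 : ‖A q‖ ^ 2 = 1 := by
      have h4 : ‖A q‖ ^ 2 * (a * b * (1 - d ^ 2)) = 1 * (a * b * (1 - d ^ 2)) := by rw [h1, one_mul]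
      exact mul_right_cancel₀ h2 h4
    have h5 := norm_nonneg (A q)
    nlinarith
  · intro p θ hpd hp hθ
    obtain ⟨κ, hκ, hk⟩ := exists_kappa hp
    have h2 := hk v u
    have h3 := hk u u
    rw [Lam_self, hNu p, hpd] at h3
    have hne : br (spin p) u ≠ 0 := by
      intro h0
      rw [h0, zero_mul] at h3
      have : 0 < κ * (a * (1 - d)) := mul_pos hκ hM
      have h4 : κ * (a * (1 - d)) = 0 := by exact_mod_cast h3.symm
      linarith
    have hneconj : (starRingEnd ℂ) (br (spin p) u) ≠ 0 := by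
      rw [Ne, map_eq_zero]
      exact hne
    have hLp : Lam v u p = ex θ * (c0 : ℂ) := by
      rw [← hθ, hA]
      field_simp
    have hbv : br (spin p) v = ex θ * R * br (spin p) u := by
      apply mul_right_cancel₀ hneconj
      rw [h2, hLp, hc0]
      push_cast at h3 ⊢
      linear_combination (-(ex θ * R)) * h3
    obtain ⟨b0, hb0⟩ : ∃ b0 : ℂ, b0 = br (spin p) u := ⟨_, rfl⟩
    rw [← hb0] at hne hbv
    have hus : br u (spin p) = -b0 := by
      rw [hb0]
      unfold br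
      ring
    have hvs : br v (spin p) = -(ex θ * R * b0) := by
      rw [← hbv]
      unfold br
      ring
    have e2 : ex θ = ex (θ / 2) * ex (θ / 2) := by
      rw [← ex_add]
      congr 1
      ring
    have e3 : ex (θ / 2) = (Real.cos (θ / 2) : ℂ) + (Real.sin (θ / 2) : ℂ) * Complex.I := by
      unfold ex
      rw [Complex.exp_mul_I, ← Complex.ofReal_cos, ← Complex.ofReal_sin]
    have e4 : ((Real.sin (θ / 2) : ℂ)) ^ 2 + (Real.cos (θ / 2) : ℂ) ^ 2 = 1 := by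
      exact_mod_cast Real.sin_sq_add_cos_sq (θ / 2)
    obtain ⟨C, hC⟩ : ∃ C : ℂ, C = (Real.cos (θ / 2) : ℂ) := ⟨_, rfl⟩
    obtain ⟨S, hS⟩ : ∃ S : ℂ, S = (Real.sin (θ / 2) : ℂ) := ⟨_, rfl⟩
    rw [← hC, ← hS] at e3 e4 ⊢
    have g1 : br (((1 / 2 : ℂ)) • u + ((1 / (2 * R) : ℂ)) • v) (spin p) = -(b0 * ex (θ / 2)) * C := by
      have : br (((1 / 2 : ℂ)) • u + ((1 / (2 * R) : ℂ)) • v) (spin p) =
          (1 / 2) * br u (spin p) + (1 / (2 * R)) * br v (spin p) := by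
        unfold br
        simp only [Prod.fst_add, Prod.snd_add, Prod.smul_fst, Prod.smul_snd, smul_eq_mul]
        ring
      rw [this, hus, hvs]
      have e5 : (1 / (2 * (R : ℂ))) * -(ex θ * R * b0) = -(ex (θ / 2) * ex (θ / 2) * b0) / 2 := by
        rw [e2]
        field_simp
      rw [e5, e3]
      linear_combination (-(b0 / 2)) * e4 * (-1) - (b0 / 2) * S ^ 2 * Complex.I_sq
    have g2 : br (((-Complex.I / 2 : ℂ)) • u + ((Complex.I / (2 * R) : ℂ)) • v) (spin p) =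
        (b0 * ex (θ / 2)) * S := by
      have : br (((-Complex.I / 2 : ℂ)) • u + ((Complex.I / (2 * R) : ℂ)) • v) (spin p) =
          (-Complex.I / 2) * br u (spin p) + (Complex.I / (2 * R)) * br v (spin p) := by
        unfold br
        simp only [Prod.fst_add, Prod.snd_add, Prod.smul_fst, Prod.smul_snd, smul_eq_mul]
        ring
      rw [this, hus, hvs]
      have e5 : (Complex.I / (2 * (R : ℂ))) * -(ex θ * R * b0) =
          -(Complex.I * (ex (θ / 2) * ex (θ / 2)) * b0) / 2 := by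
        rw [e2]
        field_simp
      rw [e5, e3]
      linear_combination (-(b0 / 2)) * Complex.I * e4 - (b0 / 2) * (S ^ 2 * Complex.I + 2 * C * S) * Complex.I_sq
    obtain ⟨e₁, he₁⟩ : ∃ e₁ : ℂ × ℂ, e₁ = ((1 / 2 : ℂ)) • u + ((1 / (2 * R) : ℂ)) • v := ⟨_, rfl⟩
    obtain ⟨e₂, he₂⟩ : ∃ e₂ : ℂ × ℂ, e₂ = ((-Complex.I / 2 : ℂ)) • u + ((Complex.I / (2 * R) : ℂ)) • v :=
      ⟨_, rfl⟩
    have hbe : br e₁ e₂ ≠ 0 := by
      have e : br e₁ e₂ = Complex.I / (2 * R) * br u v := by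
        rw [he₁, he₂]
        unfold br
        simp only [Prod.fst_add, Prod.snd_add, Prod.smul_fst, Prod.smul_snd, smul_eq_mul]
        field_simp
        ring
      rw [e]
      exact mul_ne_zero (div_ne_zero Complex.I_ne_zero (mul_ne_zero two_ne_zero hR0c)) huv
    rw [← he₁] at g1 ⊢
    rw [← he₂] at g2 ⊢
    refine ⟨-(b0 * ex (θ / 2)) / br e₁ e₂, div_ne_zero (neg_ne_zero.2 (mul_ne_zero hne (ex_ne _))) hbe, ?_⟩
    have h5 := br_basis e₁ e₂ (spin p)
    rw [g1, g2] at h5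
    have h6 : spin p = (br e₁ e₂)⁻¹ • (br e₁ e₂ • spin p) := by
      rw [smul_smul, inv_mul_cancel₀ hbe, one_smul]
    rw [h6, h5, smul_sub, smul_add, smul_smul, smul_smul, smul_smul, smul_smul, sub_eq_add_neg,
      ← neg_smul]
    congr 1
    · congr 1
      field_simp
    · congr 1
      field_simp

end Pool.Agent.H64.CW
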